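import Mathlib

set_option autoImplicit false

namespace Pool.Agent.Lib.MP_e3cc28_al

open Subgroup

universe u v

/-- Property `(∗)`: for all Sylow 2-subgroups `P`, `Q` of `G` there is a Sylow 2-subgroup `S` of
`⟨P, Q⟩` such that `P ∩ Q` is contained in `S` and is a normal subgroup of `S`. -/
def Star (G : Type u) [Group G] : Prop :=
  ∀ P Q : Sylow 2 G, ∃ S : Sylow 2 ↥((P : Subgroup G) ⊔ (Q : Subgroup G)),
    ((P : Subgroup G) ⊓ (Q : Subgroup G)).subgroupOf ((P : Subgroup G) ⊔ (Q : Subgroup G)) ≤ S ∧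
    ((((P : Subgroup G) ⊓ (Q : Subgroup G)).subgroupOf
      ((P : Subgroup G) ⊔ (Q : Subgroup G))).subgroupOf
        (S : Subgroup ↥((P : Subgroup G) ⊔ (Q : Subgroup G)))).Normal

/-- working form of `Star` -/
def Star' (G : Type u) [Group G] : Prop :=
  ∀ P Q : Sylow 2 G, ∃ S : Sylow 2 G, (S : Subgroup G) ≤ (P : Subgroup G) ⊔ (Q : Subgroup G) ∧
    (∀ x, x ∈ P → x ∈ Q → x ∈ S) ∧
    ∀ s ∈ S, ∀ d, d ∈ P → d ∈ Q → s * d * s⁻¹ ∈ P ∧ s * d * s⁻¹ ∈ Q

lemma isPGroup_not_dvd {G : Type u} [Group G] [Finite G] {S P : Subgroup G} {p : ℕ}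
    (h : Nat.card S = Nat.card P) (hP : ¬ p ∣ P.index) : ¬ p ∣ S.index := by
  have h1 := S.card_mul_index
  have h2 := P.card_mul_index
  rw [h, ← h2] at h1
  rwa [Nat.eq_of_mul_eq_mul_left Nat.card_pos h1]

theorem star_iff {G : Type u} [Group G] [Finite G] : Star G ↔ Star' G := by
  constructor
  · intro h P Q
    have h' := h P Q
    generalize hH : (P : Subgroup G) ⊔ (Q : Subgroup G) = H at h'
    have hPH : (P : Subgroup G) ≤ H := hH ▸ le_sup_left
    obtain ⟨S, hS, hn⟩ := h'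
    have hSp : IsPGroup 2 ((S : Subgroup H).map H.subtype) := S.2.map H.subtype
    have hcard : Nat.card ((S : Subgroup H).map H.subtype) = Nat.card (P : Subgroup G) := by
      have h1 : Nat.card ((S : Subgroup H).map H.subtype) = Nat.card (S : Subgroup H) :=
        Subgroup.card_subtype H S
      have h2 : Nat.card ((P.subtype hPH : Sylow 2 H) : Subgroup H) = Nat.card (P : Subgroup G) :=
        Nat.card_congr (Subgroup.subgroupOfEquivOfLe hPH).toEquiv
      have h3 : Nat.card (S : Subgroup H) = Nat.card ((P.subtype hPH : Sylow 2 H) : Subgroup H) := by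
        exact (S.card_eq_multiplicity).trans (P.subtype hPH).card_eq_multiplicity.symm
      rw [h1, h3, h2]
    refine ⟨hSp.toSylow (isPGroup_not_dvd hcard P.not_dvd_index), ?_, ?_, ?_⟩
    · rintro _ ⟨x, -, rfl⟩; exact x.2
    · intro x hxP hxQ
      have hxH : x ∈ H := hPH hxP
      refine ⟨⟨x, hxH⟩, hS ?_, rfl⟩
      exact Subgroup.mem_subgroupOf.2 ⟨hxP, hxQ⟩
    · rintro _ ⟨s, hs, rfl⟩ d hdP hdQ
      have hdH : d ∈ H := hPH hdP
      have hdS : (⟨d, hdH⟩ : H) ∈ (S : Subgroup H) := hS (Subgroup.mem_subgroupOf.2 ⟨hdP, hdQ⟩)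
      have := hn.conj_mem ⟨⟨d, hdH⟩, hdS⟩
        (Subgroup.mem_subgroupOf.2 (Subgroup.mem_subgroupOf.2 ⟨hdP, hdQ⟩)) ⟨s, hs⟩
      have h2 := Subgroup.mem_subgroupOf.1 (Subgroup.mem_subgroupOf.1 this)
      exact ⟨h2.1, h2.2⟩
  · intro h P Q
    obtain ⟨S, hSH, hS, hn⟩ := h P Q
    refine ⟨S.subtype hSH, ?_, ⟨?_⟩⟩
    · intro x hx
      have := Subgroup.mem_subgroupOf.1 hx
      exact Subgroup.mem_subgroupOf.2 (hS _ this.1 this.2)
    · rintro ⟨⟨d, hdH⟩, hdS⟩ hd ⟨⟨s, hsH⟩, hsS⟩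
      have h1 := Subgroup.mem_subgroupOf.1 (Subgroup.mem_subgroupOf.1 hd)
      have h2 := hn s (Subgroup.mem_subgroupOf.1 hsS) d h1.1 h1.2
      exact Subgroup.mem_subgroupOf.2 (Subgroup.mem_subgroupOf.2 ⟨h2.1, h2.2⟩)

/-! ### Homomorphisms with kernel of odd order -/

section

variable {G : Type u} [Group G] {G' : Type v} [Group G'] {f : G →* G'}

lemma eq_one_of_mem [Finite G] (hK : Odd (Nat.card f.ker)) {A : Subgroup G} (hA : IsPGroup 2 A)
    {x : G} (hx : x ∈ A) (hx' : f x = 1) : x = 1 := by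
  obtain ⟨k, hk⟩ := hA ⟨x, hx⟩
  have hk' : x ^ 2 ^ k = 1 := congrArg Subtype.val hk
  have h1 : orderOf x ∣ 2 ^ k := orderOf_dvd_of_pow_eq_one hk'
  have h2 : orderOf x ∣ Nat.card f.ker := by
    have h : orderOf (⟨x, MonoidHom.mem_ker.2 hx'⟩ : f.ker) ∣ Nat.card f.ker :=
      orderOf_dvd_natCard _
    rwa [Subgroup.orderOf_mk] at h
  have h3 : Nat.Coprime (2 ^ k) (Nat.card f.ker) :=
    Nat.Coprime.pow_left k (Nat.coprime_two_left.2 hK)
  exact orderOf_eq_one_iff.1 (Nat.eq_one_of_dvd_coprimes h3 h1 h2)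

lemma eq_of_mem [Finite G] (hK : Odd (Nat.card f.ker)) {A : Subgroup G} (hA : IsPGroup 2 A)
    {x y : G} (hx : x ∈ A) (hy : y ∈ A) (hxy : f x = f y) : x = y := by
  have := eq_one_of_mem hK hA (mul_mem hx (inv_mem hy)) (by rw [map_mul, map_inv, hxy]; simp)
  rwa [mul_inv_eq_one] at this

/-- If `x` and `v⁻¹ x v` are both in the 2-subgroup `A` and `v` is in the kernel, then `x`
commutes with `v`. -/
lemma comm_of_mem [Finite G] (hK : Odd (Nat.card f.ker)) {A : Subgroup G} (hA : IsPGroup 2 A)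
    {x v : G} (hv : f v = 1) (hx : x ∈ A) (hx' : v⁻¹ * x * v ∈ A) : v⁻¹ * x * v = x :=
  eq_of_mem hK hA hx' hx (by simp [hv])

lemma card_map_eq [Finite G] (hK : Odd (Nat.card f.ker)) {A : Subgroup G} (hA : IsPGroup 2 A) :
    Nat.card (A.map f) = Nat.card A := by
  refine (Nat.card_congr (Equiv.ofBijective (fun a : A => (⟨f a, a, a.2, rfl⟩ : A.map f))
    ⟨?_, ?_⟩)).symm
  · intro a b hab
    exact Subtype.ext (eq_of_mem hK hA a.2 b.2 (congrArg Subtype.val hab))
  · rintro ⟨_, a, ha, rfl⟩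
    exact ⟨⟨a, ha⟩, rfl⟩

/-- Lifting Sylow subgroups through a homomorphism with kernel of odd order. -/
lemma exists_lift [Finite G] (hf : Function.Surjective f) (hK : Odd (Nat.card f.ker))
    (S' : Sylow 2 G') (H U : Subgroup G) (hS' : (S' : Subgroup G') ≤ H.map f)
    (hU : IsPGroup 2 U) (hUH : U ≤ H) (hUS : U.map f ≤ S') :
    ∃ S : Sylow 2 G, U ≤ S ∧ (S : Subgroup G) ≤ H ∧ (S : Subgroup G).map f = S' := by
  have hG' : Finite G' := Finite.of_surjective f hf
  set T : Subgroup G := H ⊓ (S' : Subgroup G').comap f with hT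
  have hUT : U ≤ T := le_inf hUH (Subgroup.map_le_iff_le_comap.1 hUS)
  have hTmap : T.map f = S' := by
    apply le_antisymm
    · rintro _ ⟨x, hx, rfl⟩; exact hx.2
    · intro y hy
      obtain ⟨x, hx, rfl⟩ := hS' hy
      exact ⟨x, ⟨hx, hy⟩, rfl⟩
  have hU' : IsPGroup 2 (U.subgroupOf T) := hU.comap_of_injective _ (Subgroup.subtype_injective T)
  obtain ⟨ST, hST⟩ := hU'.exists_le_sylow
  set S : Subgroup G := (ST : Subgroup T).map T.subtype with hSdef
  have hSp : IsPGroup 2 S := ST.2.map T.subtype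
  have hmap : S.map f = S' := by
    -- restrict `f` to `T`
    have hsurj : Function.Surjective (f.subgroupMap T) := f.subgroupMap_surjective T
    have hfin : Finite (T.map f) := inferInstance
    have htop : IsPGroup 2 (⊤ : Subgroup (T.map f)) := by
      have : IsPGroup 2 (T.map f) := by rw [hTmap]; exact S'.2
      exact this.to_subgroup _
    have h2 := (ST.mapSurjective hsurj).is_maximal' (Q := ⊤) htop le_top
    rw [← hTmap]
    apply le_antisymm
    · rintro _ ⟨x, hx, rfl⟩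
      obtain ⟨t, -, rfl⟩ := hx
      exact ⟨t, t.2, rfl⟩
    · intro y hy
      have h3 : (⟨y, hy⟩ : T.map f) ∈ ((ST.mapSurjective hsurj : Sylow 2 (T.map f)) :
          Subgroup (T.map f)) := by
        rw [← h2]; trivial
      obtain ⟨t, ht, hty⟩ := h3
      exact ⟨t, ⟨t, ht, rfl⟩, congrArg Subtype.val hty⟩
  have hcard : Nat.card S = Nat.card (S' : Subgroup G') := by
    rw [← hmap, card_map_eq hK hSp]
  obtain ⟨P⟩ : Nonempty (Sylow 2 G) := inferInstance
  have hcardP : Nat.card (P : Subgroup G) = Nat.card (S' : Subgroup G') := by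
    rw [← card_map_eq hK P.2, ← Sylow.coe_mapSurjective hf P]
    exact (P.mapSurjective hf).card_eq_multiplicity.trans S'.card_eq_multiplicity.symm
  refine ⟨hSp.toSylow (isPGroup_not_dvd (hcard.trans hcardP.symm) P.not_dvd_index), ?_, ?_, hmap⟩
  · intro x hx
    exact ⟨⟨x, hUT hx⟩, hST (Subgroup.mem_subgroupOf.2 hx), rfl⟩
  · rintro _ ⟨t, -, rfl⟩
    exact t.2.1

/-- Two 2-subgroups with the same image are conjugate under the kernel. -/
lemma exists_conj [Finite G] (hf : Function.Surjective f) (hK : Odd (Nat.card f.ker))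
    {A B : Subgroup G} (hA : IsPGroup 2 A) (hB : IsPGroup 2 B) (hAB : A.map f = B.map f) :
    ∃ m : G, f m = 1 ∧ (∀ x ∈ A, m * x * m⁻¹ ∈ B) ∧ ∀ x ∈ B, m⁻¹ * x * m ∈ A := by
  have hG' : Finite G' := Finite.of_surjective f hf
  set T : Subgroup G := (A.map f).comap f with hT
  have hAT : A ≤ T := Subgroup.le_comap_map f A
  have hBT : B ≤ T := by rw [hT, hAB]; exact Subgroup.le_comap_map f B
  have hidx : ∀ C : Subgroup G, IsPGroup 2 C → C ≤ T → C.map f = A.map f →
      ¬ 2 ∣ (C.subgroupOf T).index := by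
    intro C hC hCT hCmap
    have h1 : (C.subgroupOf T).index * Nat.card C = Nat.card T := by
      rw [mul_comm, ← (C.subgroupOf T).card_mul_index]
      congr 1
      exact (Nat.card_congr (Subgroup.subgroupOfEquivOfLe hCT).toEquiv).symm
    have h2 : Nat.card T = Nat.card f.ker * Nat.card (A.map f) := by
      have e1 : T.index = (A.map f).index := Subgroup.index_comap_of_surjective _ hf
      have e2 := T.card_mul_index
      have e3 := (A.map f).card_mul_index
      have e4 : Nat.card G = Nat.card f.ker * Nat.card G' := by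
        rw [← f.ker.card_mul_index, Subgroup.index_ker, MonoidHom.range_eq_top.2 hf,
          Nat.card_congr (Subgroup.topEquiv (G := G')).toEquiv]
      rw [e4, ← e3, e1, ← mul_assoc] at e2
      exact Nat.eq_of_mul_eq_mul_right (Nat.pos_of_ne_zero (A.map f).index_ne_zero_of_finite) e2
    have h3 : Nat.card C = Nat.card (A.map f) := by rw [← hCmap, card_map_eq hK hC]
    rw [h2, h3] at h1
    have h4 := Nat.eq_of_mul_eq_mul_right Nat.card_pos h1
    rw [h4]
    intro h5
    exact (Nat.not_even_iff_odd.2 hK) (even_iff_two_dvd.2 h5)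
  have hA' : IsPGroup 2 (A.subgroupOf T) := hA.comap_of_injective _ (Subgroup.subtype_injective T)
  have hB' : IsPGroup 2 (B.subgroupOf T) := hB.comap_of_injective _ (Subgroup.subtype_injective T)
  let SA : Sylow 2 T := hA'.toSylow (hidx A hA hAT rfl)
  let SB : Sylow 2 T := hB'.toSylow (hidx B hB hBT hAB.symm)
  obtain ⟨t, ht⟩ := MulAction.exists_smul_eq T SA SB
  -- write `t = m a`
  obtain ⟨a, haA, hat⟩ : ∃ a ∈ A, f a = f t := by
    have h0 : f t ∈ A.map f := t.2
    exact h0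
  have key : ∀ x : G, x ∈ B ↔ (t : G)⁻¹ * x * t ∈ A := by
    intro x
    constructor
    · intro hx
      have hx' : (⟨x, hBT hx⟩ : T) ∈ SB := Subgroup.mem_subgroupOf.2 hx
      rw [← ht] at hx'
      have hx2 : (⟨x, hBT hx⟩ : T) ∈ ((t • SA : Sylow 2 T) : Subgroup T) := hx'
      rw [Sylow.coe_subgroup_smul, Subgroup.mem_pointwise_smul_iff_inv_smul_mem] at hx2
      have hx3 : t⁻¹ * ⟨x, hBT hx⟩ * t ∈ (SA : Subgroup T) := by
        simpa [MulAut.smul_def] using hx2
      exact Subgroup.mem_subgroupOf.1 hx3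
    · intro hx
      have hxT : x ∈ T := by
        have : x = t * ((t : G)⁻¹ * x * t) * (t : G)⁻¹ := by group
        rw [this]
        exact mul_mem (mul_mem t.2 (hAT hx)) (inv_mem t.2)
      have hx3 : t⁻¹ * ⟨x, hxT⟩ * t ∈ (SA : Subgroup T) := Subgroup.mem_subgroupOf.2 hx
      have hx2 : (⟨x, hxT⟩ : T) ∈ ((t • SA : Sylow 2 T) : Subgroup T) := by
        rw [Sylow.coe_subgroup_smul, Subgroup.mem_pointwise_smul_iff_inv_smul_mem]
        simpa [MulAut.smul_def] using hx3
      rw [ht] at hx2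
      exact Subgroup.mem_subgroupOf.1 hx2
  refine ⟨t * a⁻¹, by rw [map_mul, map_inv, hat]; simp, ?_, ?_⟩
  · intro x hx
    rw [key]
    have : (t : G)⁻¹ * (t * a⁻¹ * x * (t * a⁻¹)⁻¹) * t = a⁻¹ * x * a := by group
    rw [this]
    exact mul_mem (mul_mem (inv_mem haA) hx) haA
  · intro x hx
    rw [key] at hx
    have : (t * a⁻¹ : G)⁻¹ * x * (t * a⁻¹) = a * ((t : G)⁻¹ * x * t) * a⁻¹ := by group
    rw [this]
    exact mul_mem (mul_mem haA hx) (inv_mem haA)

end

end Pool.Agent.Lib.MP_e3cc28_al
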