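import Pool.Agent.Lib.MP_e3cc28_al.Reduction

set_option autoImplicit false

namespace Pool.Agent.Lib.MP_e3cc28_al

open Subgroup Pointwise commutatorElement

universe u v

/-- For every Sylow 2-subgroup `P` and `v ∈ N` the stabiliser `{x ∈ P : [x,v] ∈ M}` is closed under
conjugation by `P`. -/
def CondS {G : Type u} [Group G] (M N : Subgroup G) : Prop :=
  ∀ P : Sylow 2 G, ∀ v ∈ N, ∀ x ∈ P, ⁅x, v⁆ ∈ M → ∀ s ∈ P, ⁅s * x * s⁻¹, v⁆ ∈ M

/-- chief pairs -/
def IsChief {G : Type u} [Group G] (M N : Subgroup G) : Prop :=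
  M.Normal ∧ N.Normal ∧ M < N ∧ ∀ K : Subgroup G, K.Normal → M ≤ K → K ≤ N → K = M ∨ K = N

lemma commutator_lt {G : Type u} [Group G] (A : Subgroup G) (h : A ≠ ⊥)
    (hA : Group.IsSolvable A) : ⁅A, A⁆ < A := by
  have hnt : Nontrivial A := (Subgroup.nontrivial_iff_ne_bot A).2 h
  have h1 := Group.IsSolvable.commutator_lt_top_of_nontrivial A
  rw [← Subgroup.map_subtype_commutator]
  refine lt_of_le_of_ne ?_ ?_
  · exact Subgroup.map_subtype_le _
  · intro h2
    apply h1.ne
    apply Subgroup.map_injective (Subgroup.subtype_injective A)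
    rw [h2, ← MonoidHom.range_eq_map, Subgroup.range_subtype]

/-- a minimal normal subgroup inside a soluble normal subgroup is a 2-group or has odd order -/
lemma exists_minimal_normal {G : Type u} [Group G] [Finite G] (K : Subgroup G) [K.Normal]
    (hK : Group.IsSolvable K) (hne : K ≠ ⊥) :
    ∃ A : Subgroup G, A.Normal ∧ A ≤ K ∧ A ≠ ⊥ ∧ (Odd (Nat.card A) ∨ IsPGroup 2 A) ∧
      ∀ B : Subgroup G, B.Normal → B ≤ A → B = ⊥ ∨ B = A := by
  obtain ⟨A, hA⟩ := Set.Finite.exists_minimal
    (s := {A : Subgroup G | A.Normal ∧ A ≤ K ∧ A ≠ ⊥}) (Set.toFinite _) ⟨K, inferInstance, le_rfl, hne⟩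
  obtain ⟨⟨hAn, hAK, hA0⟩, hmin⟩ := hA
  have hmin' : ∀ B : Subgroup G, B.Normal → B ≤ A → B = ⊥ ∨ B = A := by
    intro B hB hBA
    by_cases h : B = ⊥
    · exact Or.inl h
    · exact Or.inr (le_antisymm hBA (hmin ⟨hB, hBA.trans hAK, h⟩ hBA))
  refine ⟨A, hAn, hAK, hA0, ?_, hmin'⟩
  have hAs : Group.IsSolvable A := Group.isSolvable_of_isSolvable_injective
    (f := Subgroup.inclusion hAK) (Subgroup.inclusion_injective hAK)
  have hcomm : ⁅A, A⁆ = ⊥ := by
    rcases hmin' ⁅A, A⁆ inferInstance (commutator_lt A hA0 hAs).le with h | h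
    · exact h
    · exact absurd h (commutator_lt A hA0 hAs).ne
  have hab : ∀ a ∈ A, ∀ b ∈ A, a * b = b * a := by
    intro a ha b hb
    have := Subgroup.commutator_mem_commutator ha hb
    rw [hcomm, Subgroup.mem_bot, commutatorElement_eq_one_iff_mul_comm] at this
    exact this
  let B : Subgroup G :=
    { carrier := {a | a ∈ A ∧ a ^ 2 = 1}
      one_mem' := ⟨one_mem A, one_pow 2⟩
      mul_mem' := by
        rintro a b ⟨ha, ha2⟩ ⟨hb, hb2⟩
        refine ⟨mul_mem ha hb, ?_⟩
        have : (a * b) ^ 2 = a ^ 2 * b ^ 2 := by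
          rw [pow_two, pow_two, pow_two, mul_assoc, ← mul_assoc b a b, hab b hb a ha]; group
        rw [this, ha2, hb2, one_mul]
      inv_mem' := by
        rintro a ⟨ha, ha2⟩
        exact ⟨inv_mem ha, by rw [inv_pow, ha2, inv_one]⟩ }
  have hBn : B.Normal := ⟨by
    rintro a ⟨ha, ha2⟩ g
    exact ⟨hAn.conj_mem a ha g, by rw [conj_pow, ha2, mul_one, mul_inv_cancel]⟩⟩
  rcases hmin' B hBn (fun x hx => hx.1) with h | h
  · left
    rw [← Nat.not_even_iff_odd, even_iff_two_dvd]
    intro h2
    obtain ⟨x, hx⟩ := exists_prime_orderOf_dvd_card' 2 h2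
    have hxB : (x : G) ∈ B := by
      refine ⟨x.2, ?_⟩
      have := pow_orderOf_eq_one x
      rw [hx] at this
      exact congrArg Subtype.val this
    rw [h, Subgroup.mem_bot] at hxB
    have : x = 1 := Subtype.ext hxB
    rw [this, orderOf_one] at hx
    exact absurd hx (by norm_num)
  · right
    intro x
    refine ⟨1, ?_⟩
    have hxB : (x : G) ∈ B := by rw [h]; exact x.2
    exact Subtype.ext (by simpa using hxB.2)

/-- data of an inductive step -/
lemma step {G : Type u} [Group G] [Finite G] {G' : Type v} [Group G'] (f : G →* G')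
    (hf : Function.Surjective f) (A : Subgroup G) [A.Normal] (hA : A ≤ f.ker) (hA0 : A ≠ ⊥)
    (hs : Group.IsSolvable f.ker) :
    Function.Surjective (QuotientGroup.lift A f hA) ∧
      Group.IsSolvable (QuotientGroup.lift A f hA).ker ∧ Nat.card (G ⧸ A) < Nat.card G := by
  refine ⟨?_, ?_, ?_⟩
  · intro y
    obtain ⟨x, rfl⟩ := hf y
    exact ⟨QuotientGroup.mk x, rfl⟩
  · rw [QuotientGroup.ker_lift]
    exact Group.isSolvable_of_surjective
      (f := (QuotientGroup.mk' A).subgroupMap f.ker)
      ((QuotientGroup.mk' A).subgroupMap_surjective f.ker)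
  · have h1 := A.card_mul_index
    have h2 : 1 < Nat.card A := by
      have := (Subgroup.nontrivial_iff_ne_bot A).2 hA0
      exact Finite.one_lt_card
    have h3 : 0 < Nat.card (G ⧸ A) := Nat.card_pos
    rw [Subgroup.index] at h1
    rw [← h1]
    nlinarith

theorem star_bij {G : Type u} [Group G] [Finite G] {G' : Type v} [Group G'] (f : G →* G')
    (hf : Function.Surjective f) (h : f.ker = ⊥) : Star' G ↔ Star' G' :=
  star_iff_two hf (by rw [h]; exact IsPGroup.of_bot)

theorem star_quot (n : ℕ) : ∀ (G : Type u) [Group G] [Finite G] (G' : Type v) [Group G']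
    (f : G →* G'), Function.Surjective f → Group.IsSolvable f.ker → Nat.card G ≤ n →
    Star' G → Star' G' := by
  induction n with
  | zero =>
    intro G _ _ G' _ f _ _ h
    have : 0 < Nat.card G := Nat.card_pos
    omega
  | succ n ih =>
    intro G _ _ G' _ f hf hs hn hG
    by_cases hne : f.ker = ⊥
    · exact (star_bij f hf hne).1 hG
    · obtain ⟨A, hAn, hAK, hA0, hA2, -⟩ := exists_minimal_normal f.ker hs hne
      obtain ⟨h1, h2, h3⟩ := step f hf A hAK hA0 hs
      refine ih (G ⧸ A) G' (QuotientGroup.lift A f hAK) h1 h2 (by omega) ?_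
      rcases hA2 with hA2 | hA2
      · exact star_of_star_odd (QuotientGroup.mk'_surjective A)
          (by rwa [QuotientGroup.ker_mk']) hG
      · exact (star_iff_two (QuotientGroup.mk'_surjective A)
          (by rwa [QuotientGroup.ker_mk'])).1 hG

theorem condS_of_star {G : Type u} [Group G] [Finite G] {G' : Type v} [Group G'] (f : G →* G')
    (hs : Group.IsSolvable f.ker) (hG : Star' G)
    (M N : Subgroup G) [M.Normal] [N.Normal] (hMN : M ≤ N) (hN : N ≤ f.ker)
    (hodd : Odd (M.relIndex N)) : CondS M N := by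
  have hMs : Group.IsSolvable (QuotientGroup.mk' M).ker := by
    rw [QuotientGroup.ker_mk']
    exact Group.isSolvable_of_isSolvable_injective (f := Subgroup.inclusion (hMN.trans hN))
      (Subgroup.inclusion_injective _)
  have h1 : Star' (G ⧸ M) := star_quot _ G (G ⧸ M) (QuotientGroup.mk' M)
    (QuotientGroup.mk'_surjective M) hMs le_rfl hG
  have hMN' : M ≤ (QuotientGroup.mk' N).ker := by rwa [QuotientGroup.ker_mk']
  set g : G ⧸ M →* G ⧸ N := QuotientGroup.lift M (QuotientGroup.mk' N) hMN' with hg
  have hgs : Function.Surjective g := by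
    intro y
    obtain ⟨x, rfl⟩ := QuotientGroup.mk'_surjective N y
    exact ⟨QuotientGroup.mk x, rfl⟩
  have hgk : Odd (Nat.card g.ker) := by
    rw [hg, QuotientGroup.ker_lift, QuotientGroup.ker_mk']
    have h2 : Nat.card (N.map (QuotientGroup.mk' M)) = M.relIndex N := by
      have h3 := Subgroup.relIndex_comap (⊥ : Subgroup (G ⧸ M)) (QuotientGroup.mk' M) N
      rw [Subgroup.relIndex_bot_left, MonoidHom.comap_bot, QuotientGroup.ker_mk'] at h3
      exact h3.symm
    rwa [h2]
  have h4 := stabN_of_star_odd hgs hgk h1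
  intro P v hv x hx hxv s hs
  have h5 := h4 (P.mapSurjective (QuotientGroup.mk'_surjective M)) (QuotientGroup.mk' M v)
    (by change (QuotientGroup.mk' N) v = 1
        rw [← MonoidHom.mem_ker, QuotientGroup.ker_mk']; exact hv)
    (QuotientGroup.mk' M x) ⟨x, hx, rfl⟩
    (by rw [← commutatorElement_eq_one_iff_mul_comm, ← map_commutatorElement, ← MonoidHom.mem_ker,
          QuotientGroup.ker_mk']; exact hxv)
    (QuotientGroup.mk' M s) ⟨s, hs, rfl⟩
  rw [← map_mul, ← map_inv, ← map_mul, ← commutatorElement_eq_one_iff_mul_comm,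
    ← map_commutatorElement, ← MonoidHom.mem_ker, QuotientGroup.ker_mk'] at h5
  exact h5

theorem star_of_chief (n : ℕ) : ∀ (G : Type u) [Group G] [Finite G] (G' : Type v) [Group G']
    (f : G →* G'), Function.Surjective f → Group.IsSolvable f.ker → Nat.card G ≤ n →
    Star' G' → (∀ M N : Subgroup G, IsChief M N → N ≤ f.ker → Odd (M.relIndex N) → CondS M N) →
    Star' G := by
  induction n with
  | zero =>
    intro G _ _ G' _ f _ _ h
    have : 0 < Nat.card G := Nat.card_pos
    omega
  | succ n ih =>
    intro G _ _ G' _ f hf hs hn hG' hc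
    by_cases hne : f.ker = ⊥
    · exact (star_bij f hf hne).2 hG'
    · obtain ⟨A, hAn, hAK, hA0, hA2, hmin⟩ := exists_minimal_normal f.ker hs hne
      obtain ⟨h1, h2, h3⟩ := step f hf A hAK hA0 hs
      have hq := QuotientGroup.mk'_surjective A
      have hA : Star' (G ⧸ A) := by
        refine ih (G ⧸ A) G' (QuotientGroup.lift A f hAK) h1 h2 (by omega) hG' ?_
        rintro M N ⟨hM, hN, hMN, hch⟩ hNk hodd
        have hkerle : ∀ K : Subgroup (G ⧸ A), A ≤ K.comap (QuotientGroup.mk' A) := by
          intro K x hx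
          have : QuotientGroup.mk' A x = 1 := by
            rw [← MonoidHom.mem_ker, QuotientGroup.ker_mk']; exact hx
          rw [Subgroup.mem_comap, this]
          exact one_mem K
        have hc' := hc (M.comap (QuotientGroup.mk' A)) (N.comap (QuotientGroup.mk' A))
          ⟨Subgroup.normal_comap _, Subgroup.normal_comap _,
            (Subgroup.comap_lt_comap_of_surjective hq).2 hMN, by
              intro K hK hMK hKN
              have hKA : (K.map (QuotientGroup.mk' A)).comap (QuotientGroup.mk' A) = K := by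
                apply Subgroup.comap_map_eq_self
                rw [QuotientGroup.ker_mk']
                exact (hkerle M).trans hMK
              have := hch (K.map (QuotientGroup.mk' A)) (hK.map _ hq)
                (by rw [← Subgroup.comap_le_comap_of_surjective hq, hKA]; exact hMK)
                (by rw [Subgroup.map_le_iff_le_comap]; exact hKN)
              rcases this with h | h
              · left; rw [← h, hKA]
              · right; rw [← h, hKA]⟩
          (by
            intro x hx
            have := hNk hx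
            exact this)
          (by
            rw [Subgroup.relIndex_comap, Subgroup.map_comap_eq_self_of_surjective hq]
            exact hodd)
        intro P v hv x hx hxv s hs
        obtain ⟨P, rfl⟩ := Sylow.mapSurjective_surjective hq 2 P
        obtain ⟨v, rfl⟩ := hq v
        obtain ⟨x, hx, rfl⟩ := hx
        obtain ⟨s, hs, rfl⟩ := hs
        have := hc' P v hv x hx (by
          rw [Subgroup.mem_comap, map_commutatorElement]; exact hxv) s hs
        rw [Subgroup.mem_comap, map_commutatorElement] at this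
        simpa using this
      rcases hA2 with hA2 | hA2
      · refine star_of_stabN hq (by rwa [QuotientGroup.ker_mk']) hA ?_
        have hc' := hc ⊥ A ⟨inferInstance, hAn, bot_lt_iff_ne_bot.2 hA0,
          fun K hK _ hKA => hmin K hK hKA⟩ hAK (by rwa [Subgroup.relIndex_bot_left])
        intro P v hv x hx hxv s hs
        have hv' : v ∈ A := by
          rw [← MonoidHom.mem_ker, QuotientGroup.ker_mk'] at hv; exact hv
        have := hc' P v hv' x hx
          (by rw [Subgroup.mem_bot, commutatorElement_eq_one_iff_mul_comm]; exact hxv) s hs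
        rw [Subgroup.mem_bot, commutatorElement_eq_one_iff_mul_comm] at this
        exact this
      · exact (star_iff_two hq (by rwa [QuotientGroup.ker_mk'])).2 hA

end Pool.Agent.Lib.MP_e3cc28_al
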