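import Pool.Agent.Lib.MP_e3cc28_al.Induction

section

set_option autoImplicit false

namespace Pool.Agent.Lib.MP_e3cc28_al

open Subgroup Pointwise commutatorElement

universe u v

/-- an odd-exponent cancellation -/
lemma eq_one_of_pow_two {V : Type u} [Group V] {p : ℕ} (hp : Odd p) (hV : ∀ v : V, v ^ p = 1)
    (k : ℕ) {v : V} (h : v ^ 2 ^ k = 1) : v = 1 := by
  have h1 : orderOf v ∣ 2 ^ k := orderOf_dvd_of_pow_eq_one h
  have h2 : orderOf v ∣ p := orderOf_dvd_of_pow_eq_one (hV v)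
  have h3 : Nat.Coprime (2 ^ k) p := Nat.Coprime.pow_left k (Nat.coprime_two_left.2 hp)
  exact orderOf_eq_one_iff.1 (Nat.eq_one_of_dvd_coprimes h3 h1 h2)

lemma exists_proj_aux {K : Type u} {A : Type v} [Field K] [AddCommGroup A] [Module K A]
    (U : Submodule K A) : ∃ g : A →ₗ[K] A, (∀ v, g v ∈ U) ∧ ∀ w ∈ U, g w = w := by
  obtain ⟨C, hC⟩ := Submodule.exists_isCompl U
  refine ⟨U.subtype.comp (Submodule.linearProjOfIsCompl U C hC), fun v => ?_, fun w hw => ?_⟩
  · exact (Submodule.linearProjOfIsCompl U C hC v).2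
  · exact congrArg Subtype.val (Submodule.linearProjOfIsCompl_apply_left hC ⟨w, hw⟩)

lemma exists_proj {A : Type v} [AddCommGroup A] (p : ℕ) [Fact p.Prime]
    (hV : ∀ a : A, p • a = 0) (W : AddSubgroup A) :
    ∃ π : A →+ A, (∀ v, π v ∈ W) ∧ ∀ w ∈ W, π w = w := by
  let inst : Module (ZMod p) A := AddCommGroup.zmodModule hV
  obtain ⟨g, h1, h2⟩ := exists_proj_aux (K := ZMod p) (AddSubgroup.toZModSubmodule p W)
  exact ⟨g.toAddMonoidHom, h1, h2⟩

/-- Maschke's theorem for a 2-group acting on an elementary abelian group of odd order. -/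
lemma exists_compl {P : Type u} {V : Type v} [Group P] [Finite P] (hP : IsPGroup 2 P)
    [CommGroup V] (p : ℕ) [Fact p.Prime] (hp : Odd p) (hV : ∀ v : V, v ^ p = 1)
    (φ : P →* MulAut V) (W : Subgroup V) (hW : ∀ s : P, ∀ w ∈ W, φ s w ∈ W) :
    ∃ C : Subgroup V, (∀ s : P, ∀ w ∈ C, φ s w ∈ C) ∧ W ⊓ C = ⊥ ∧
      ∀ v : V, ∃ w ∈ W, ∃ c ∈ C, w * c = v := by
  classical
  have : Fintype P := Fintype.ofFinite P
  -- a projection
  obtain ⟨π, hπ1, hπ2⟩ : ∃ π : V →* V, (∀ v, π v ∈ W) ∧ ∀ w ∈ W, π w = w := by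
    obtain ⟨π, h1, h2⟩ := exists_proj (A := Additive V) p (by
      intro x
      change Additive.ofMul (x.toMul ^ p) = 0
      rw [hV]; rfl) W.toAddSubgroup
    exact ⟨MonoidHom.toAdditive.symm π, fun v => h1 (Additive.ofMul v),
      fun w hw => h2 (Additive.ofMul w) hw⟩
  let e : V →* V := ∏ s : P, ((φ s⁻¹).toMonoidHom.comp (π.comp (φ s).toMonoidHom))
  have he : ∀ v, e v = ∏ s : P, φ s⁻¹ (π (φ s v)) := by
    intro v
    simp [e]
  have heW : ∀ v, e v ∈ W := by
    intro v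
    rw [he]
    exact Subgroup.prod_mem _ fun s _ => hW _ _ (hπ1 _)
  have heq : ∀ t : P, ∀ v, e (φ t v) = φ t (e v) := by
    intro t v
    rw [he, he, map_prod]
    refine Fintype.prod_equiv (Equiv.mulRight t) _ _ ?_
    intro s
    simp only [Equiv.coe_mulRight, mul_inv_rev, map_mul, MulAut.mul_apply, map_inv,
      MulAut.apply_inv_self]
  obtain ⟨k, hk⟩ := (IsPGroup.iff_card.1 hP)
  have heWid : ∀ w ∈ W, e w = w ^ 2 ^ k := by
    intro w hw
    rw [he]
    have : ∀ s : P, φ s⁻¹ (π (φ s w)) = w := by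
      intro s
      rw [hπ2 _ (hW s w hw)]
      simp
    rw [Finset.prod_congr rfl (fun s _ => this s), Finset.prod_const, Finset.card_univ,
      ← Nat.card_eq_fintype_card, hk]
  refine ⟨e.ker, ?_, ?_, ?_⟩
  · intro s w hw
    rw [MonoidHom.mem_ker] at hw ⊢
    rw [heq, hw, map_one]
  · rw [eq_bot_iff]
    rintro w ⟨hw, hw'⟩
    have h1 : e w = 1 := hw'
    rw [heWid w hw] at h1
    exact eq_one_of_pow_two hp hV k h1
  · intro v
    -- `m` with `2 ^ k * m ≡ 1 mod p`
    have hcop : Nat.Coprime (2 ^ k) p := Nat.Coprime.pow_left k (Nat.coprime_two_left.2 hp)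
    obtain ⟨m, hm⟩ := exists_pow_eq_self_of_coprime (x := e v) (n := 2 ^ k)
      (hcop.coprime_dvd_right (orderOf_dvd_of_pow_eq_one (hV _)))
    refine ⟨(e v) ^ m, pow_mem (heW v) m, ((e v) ^ m)⁻¹ * v, ?_, by group⟩
    rw [MonoidHom.mem_ker, map_mul, map_inv, heWid _ (pow_mem (heW v) m)]
    rw [← pow_mul, mul_comm m, pow_mul, hm]
    simp

/-- If every element of the 2-group `P` acts trivially or fixed-point-freely on each irreducible
`P`-submodule of the elementary abelian group `V` of odd order then point stabilisers are normal. -/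
theorem stab_of_irr {P : Type u} {V : Type v} [Group P] [Finite P] (hP : IsPGroup 2 P)
    [CommGroup V] [Finite V] (p : ℕ) [Fact p.Prime] (hp : Odd p) (hV : ∀ v : V, v ^ p = 1)
    (φ : P →* MulAut V)
    (h : ∀ W : Subgroup V, W ≠ ⊥ → (∀ s : P, ∀ w ∈ W, φ s w ∈ W) →
      (∀ K : Subgroup V, K ≤ W → (∀ s : P, ∀ w ∈ K, φ s w ∈ K) → K = ⊥ ∨ K = W) →
      ∀ x : P, (∀ w ∈ W, φ x w = w) ∨ (∀ w ∈ W, φ x w = w → w = 1)) (x : P) :
    ∀ X : Subgroup V, (∀ s : P, ∀ w ∈ X, φ s w ∈ X) → ∀ v ∈ X, φ x v = v →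
      ∀ s : P, φ (s * x * s⁻¹) v = v := by
  intro X
  induction X using WellFoundedLT.induction with
  | ind X ih =>
    intro hX v hvX hv
    by_cases hX0 : X = ⊥
    · intro s
      rw [hX0, Subgroup.mem_bot] at hvX
      rw [hvX, map_one]
    · obtain ⟨W, ⟨hW1, hW2, hW3⟩, hmin⟩ := Set.Finite.exists_minimal
        (s := {W : Subgroup V | W ≠ ⊥ ∧ W ≤ X ∧ ∀ s : P, ∀ w ∈ W, φ s w ∈ W}) (Set.toFinite _)
        ⟨X, hX0, le_rfl, hX⟩
      have hWirr := h W hW1 hW3 (by
        intro K hK hK'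
        by_cases hK0 : K = ⊥
        · exact Or.inl hK0
        · exact Or.inr (le_antisymm hK (hmin ⟨hK0, hK.trans hW2, hK'⟩ hK))) x
      obtain ⟨C, hC1, hC2, hC3⟩ := exists_compl hP p hp hV φ W hW3
      obtain ⟨w, hw, c, hc, rfl⟩ := hC3 v
      have hlt : X ⊓ C < X := by
        refine lt_of_le_of_ne inf_le_left ?_
        intro heq
        apply hW1
        rw [← hC2]
        refine (inf_eq_left.2 ?_).symm
        exact hW2.trans (by rw [← heq]; exact inf_le_right)
      have hcX : c ∈ X := by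
        have := mul_mem (inv_mem (hW2 hw)) hvX
        rwa [inv_mul_cancel_left] at this
      have hfix : φ x w * w⁻¹ = 1 ∧ φ x c = c := by
        rw [map_mul] at hv
        have h1 : φ x w * w⁻¹ = c * (φ x c)⁻¹ := by
          rw [mul_inv_eq_iff_eq_mul, mul_comm c, mul_assoc, eq_inv_mul_iff_mul_eq, mul_comm _ (φ x w),
            hv, mul_comm]
        have h2 : φ x w * w⁻¹ ∈ W ⊓ C := by
          refine Subgroup.mem_inf.2 ⟨mul_mem (hW3 x w hw) (inv_mem hw), ?_⟩
          rw [h1]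
          exact mul_mem hc (inv_mem (hC1 x c hc))
        rw [hC2, Subgroup.mem_bot] at h2
        refine ⟨h2, ?_⟩
        rw [h2] at h1
        exact (mul_inv_eq_one.1 h1.symm).symm
      have hwx : φ x w = w := mul_inv_eq_one.1 hfix.1
      intro s
      have hcs := ih (X ⊓ C) hlt (fun s w hw => ⟨hX s w hw.1, hC1 s w hw.2⟩) c ⟨hcX, hc⟩ hfix.2 s
      have hws : φ (s * x * s⁻¹) w = w := by
        rcases hWirr with h1 | h1
        · rw [map_mul, map_mul, MulAut.mul_apply, MulAut.mul_apply, h1 _ (hW3 _ _ hw)]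
          simp
        · rw [h1 w hw hwx, map_one]
      rw [map_mul, hws, hcs]

end Pool.Agent.Lib.MP_e3cc28_al
end

section

set_option autoImplicit false

namespace Pool.Agent.Lib.MP_e3cc28_al

open Subgroup Pointwise commutatorElement

universe u v

/-- The elements of every Sylow 2-subgroup `P` act trivially or fixed-point-freely on every
irreducible `P`-submodule of `N/M`. -/
def CondIrr {G : Type u} [Group G] (M N : Subgroup G) : Prop :=
  ∀ P : Sylow 2 G, ∀ W : Subgroup G, M < W → W ≤ N → (∀ s ∈ P, ∀ w ∈ W, s * w * s⁻¹ ∈ W) →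
    (∀ K : Subgroup G, M ≤ K → K ≤ W → (∀ s ∈ P, ∀ w ∈ K, s * w * s⁻¹ ∈ K) → K = M ∨ K = W) →
    ∀ x ∈ P, (∀ w ∈ W, ⁅x, w⁆ ∈ M) ∨ (∀ w ∈ W, ⁅x, w⁆ ∈ M → w ∈ M)

theorem condIrr_of_condS {G : Type u} [Group G] {M N : Subgroup G} (hM : M.Normal)
    (h : CondS M N) : CondIrr M N := by
  intro P W hMW hWN hPW hirr x hx
  by_cases hfix : ∀ w ∈ W, ⁅x, w⁆ ∈ M → w ∈ M
  · exact Or.inr hfix
  left
  push Not at hfix
  obtain ⟨w₀, hw₀, hxw₀, hw₀M⟩ := hfix
  -- fixed point submodule
  have hmul : ∀ y a b : G, ⁅y, a⁆ ∈ M → ⁅y, b⁆ ∈ M → ⁅y, a * b⁆ ∈ M := by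
    intro y a b ha hb
    have : ⁅y, a * b⁆ = ⁅y, a⁆ * (a * ⁅y, b⁆ * a⁻¹) := by
      simp only [commutatorElement_def]; group
    rw [this]
    exact mul_mem ha (hM.conj_mem _ hb a)
  have hinv : ∀ y a : G, ⁅y, a⁆ ∈ M → ⁅y, a⁻¹⁆ ∈ M := by
    intro y a ha
    have : ⁅y, a⁻¹⁆ = a⁻¹ * ⁅y, a⁆⁻¹ * a⁻¹⁻¹ := by
      simp only [commutatorElement_def]; group
    rw [this]
    exact hM.conj_mem _ (inv_mem ha) _
  let K : Subgroup G :=
    { carrier := {w | w ∈ W ∧ ∀ s ∈ P, ⁅s * x * s⁻¹, w⁆ ∈ M}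
      one_mem' := ⟨one_mem W, fun s _ => by rw [commutatorElement_one_right]; exact one_mem M⟩
      mul_mem' := by
        rintro a b ⟨ha, ha'⟩ ⟨hb, hb'⟩
        exact ⟨mul_mem ha hb, fun s hs => hmul _ _ _ (ha' s hs) (hb' s hs)⟩
      inv_mem' := by
        rintro a ⟨ha, ha'⟩
        exact ⟨inv_mem ha, fun s hs => hinv _ _ (ha' s hs)⟩ }
  have hMK : M ≤ K := by
    intro m hm
    refine ⟨hMW.le hm, fun s hs => ?_⟩
    rw [commutatorElement_def]
    exact mul_mem (hM.conj_mem m hm _) (inv_mem hm)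
  have hKP : ∀ s ∈ P, ∀ w ∈ K, s * w * s⁻¹ ∈ K := by
    rintro s hs w ⟨hw, hw'⟩
    refine ⟨hPW s hs w hw, fun t ht => ?_⟩
    have h1 := hw' (s⁻¹ * t) (mul_mem (inv_mem hs) ht)
    have h2 := hM.conj_mem _ h1 s
    have h3 : s * ⁅s⁻¹ * t * x * (s⁻¹ * t)⁻¹, w⁆ * s⁻¹ = ⁅t * x * t⁻¹, s * w * s⁻¹⁆ := by
      simp only [commutatorElement_def]; group
    rwa [h3] at h2
  have hw₀K : w₀ ∈ K := ⟨hw₀, fun s hs => h P w₀ (hWN hw₀) x hx hxw₀ s hs⟩
  rcases hirr K hMK (fun w hw => hw.1) hKP with h1 | h1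
  · rw [h1] at hw₀K
    exact absurd hw₀K hw₀M
  · intro w hw
    rw [← h1] at hw
    have := hw.2 1 (one_mem _)
    simpa using this

/-- minimal normal soluble subgroups are elementary abelian -/
lemma min_normal_elementary {G : Type u} [Group G] [Finite G] (A : Subgroup G) [hAn : A.Normal]
    (hAs : Group.IsSolvable A) (hA0 : A ≠ ⊥)
    (hmin : ∀ B : Subgroup G, B.Normal → B ≤ A → B = ⊥ ∨ B = A) :
    (∀ a ∈ A, ∀ b ∈ A, a * b = b * a) ∧
      ∃ p : ℕ, p.Prime ∧ p ∣ Nat.card A ∧ ∀ a ∈ A, a ^ p = 1 := by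
  have hcomm : ⁅A, A⁆ = ⊥ := by
    rcases hmin ⁅A, A⁆ inferInstance (commutator_lt A hA0 hAs).le with h | h
    · exact h
    · exact absurd h (commutator_lt A hA0 hAs).ne
  have hab : ∀ a ∈ A, ∀ b ∈ A, a * b = b * a := by
    intro a ha b hb
    have := Subgroup.commutator_mem_commutator ha hb
    rw [hcomm, Subgroup.mem_bot, commutatorElement_eq_one_iff_mul_comm] at this
    exact this
  refine ⟨hab, ?_⟩
  have hnt : Nontrivial A := (Subgroup.nontrivial_iff_ne_bot A).2 hA0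
  have hcard : Nat.card A ≠ 1 := Finite.one_lt_card.ne'
  obtain ⟨p, hp, hpA⟩ := Nat.exists_prime_and_dvd hcard
  refine ⟨p, hp, hpA, ?_⟩
  have hfact : Fact p.Prime := ⟨hp⟩
  let B : Subgroup G :=
    { carrier := {a | a ∈ A ∧ a ^ p = 1}
      one_mem' := ⟨one_mem A, one_pow p⟩
      mul_mem' := by
        rintro a b ⟨ha, ha2⟩ ⟨hb, hb2⟩
        refine ⟨mul_mem ha hb, ?_⟩
        have hc : Commute a b := hab a ha b hb
        rw [hc.mul_pow, ha2, hb2, one_mul]
      inv_mem' := by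
        rintro a ⟨ha, ha2⟩
        exact ⟨inv_mem ha, by rw [inv_pow, ha2, inv_one]⟩ }
  have hBn : B.Normal := ⟨by
    rintro a ⟨ha, ha2⟩ g
    exact ⟨hAn.conj_mem a ha g, by rw [conj_pow, ha2, mul_one, mul_inv_cancel]⟩⟩
  rcases hmin B hBn (fun x hx => hx.1) with h | h
  · exfalso
    obtain ⟨x, hx⟩ := exists_prime_orderOf_dvd_card' p hpA
    have hxB : (x : G) ∈ B := by
      refine ⟨x.2, ?_⟩
      have := pow_orderOf_eq_one x
      rw [hx] at this
      exact congrArg Subtype.val this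
    rw [h, Subgroup.mem_bot] at hxB
    have : x = 1 := Subtype.ext hxB
    rw [this, orderOf_one] at hx
    exact hp.one_lt.ne hx
  · intro a ha
    rw [← h] at ha
    exact ha.2

theorem condS_of_condIrr {G : Type u} [Group G] [Finite G] {M N : Subgroup G}
    (hc : IsChief M N) (hNs : Group.IsSolvable N) (hodd : Odd (M.relIndex N))
    (h : CondIrr M N) : CondS M N := by
  obtain ⟨hM, hN, hMN, hch⟩ := hc
  obtain ⟨Q, instQ, q, hqs, hqk⟩ : ∃ (Q : Type u) (_ : Group Q) (q : G →* Q),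
      Function.Surjective q ∧ q.ker = M :=
    ⟨G ⧸ M, inferInstance, QuotientGroup.mk' M, QuotientGroup.mk'_surjective M,
      QuotientGroup.ker_mk' M⟩
  have hQfin : Finite Q := Finite.of_surjective q hqs
  set V : Subgroup Q := N.map q with hVdef
  have hVn : V.Normal := hN.map q hqs
  have hcomapV : V.comap q = N := Subgroup.comap_map_eq_self (by rw [hqk]; exact hMN.le)
  have hVs : Group.IsSolvable V := Group.isSolvable_of_surjective (f := q.subgroupMap N)
    (q.subgroupMap_surjective N)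
  have hcardV : Nat.card V = M.relIndex N := by
    have h3 := Subgroup.relIndex_comap (⊥ : Subgroup Q) q N
    rw [Subgroup.relIndex_bot_left, MonoidHom.comap_bot, hqk] at h3
    exact h3.symm
  have hV0 : V ≠ ⊥ := by
    intro h0
    rw [h0, MonoidHom.comap_bot, hqk] at hcomapV
    exact hMN.ne hcomapV
  have hVmin : ∀ B : Subgroup Q, B.Normal → B ≤ V → B = ⊥ ∨ B = V := by
    intro B hB hBV
    have h1 := hch (B.comap q) (Subgroup.normal_comap q)
      (by rw [← hqk, ← MonoidHom.comap_bot]; exact Subgroup.comap_mono bot_le)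
      (by rw [← hcomapV]; exact Subgroup.comap_mono hBV)
    rcases h1 with h1 | h1
    · left
      rw [← Subgroup.map_comap_eq_self_of_surjective hqs B, h1, ← hqk, Subgroup.map_eq_bot_iff]
    · right
      rw [← Subgroup.map_comap_eq_self_of_surjective hqs B, h1]
  obtain ⟨hcomm, p, hp, hpV, hexp⟩ := min_normal_elementary V hVs hV0 hVmin
  have hpodd : Odd p := by
    rw [hcardV] at hpV
    exact Odd.of_dvd_nat hodd hpV
  have hfact : Fact p.Prime := ⟨hp⟩
  intro P v hv x hx hxv s hs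
  let instV : CommGroup V :=
    { (inferInstance : Group V) with mul_comm := fun a b => Subtype.ext (hcomm a a.2 b b.2) }
  let φ : (P : Subgroup G) →* MulAut V :=
    (MulAut.conjNormal (H := V)).comp (q.comp (P : Subgroup G).subtype)
  have hφ : ∀ (s : (P : Subgroup G)) (w : V), ((φ s w : V) : Q) = q s * w * (q s)⁻¹ := by
    intro s w
    rfl
  have hmemM : ∀ g : G, q g = 1 ↔ g ∈ M := by
    intro g
    rw [← MonoidHom.mem_ker, hqk]
  have hfix : ∀ (x : (P : Subgroup G)) (w : V) (w' : G), q w' = w →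
      (φ x w = w ↔ ⁅(x : G), w'⁆ ∈ M) := by
    intro x w w' hw'
    rw [← hmemM, map_commutatorElement, hw', commutatorElement_def, mul_inv_eq_one,
      ← hφ, Subtype.ext_iff]
  have main := stab_of_irr (P := (P : Subgroup G)) (V := V) P.2 p hpodd
    (fun v => Subtype.ext (hexp v v.2)) φ (by
      intro W hW0 hWP hWmin x
      set W' : Subgroup G := (W.map V.subtype).comap q with hW'
      have hWle : W.map V.subtype ≤ V := Subgroup.map_subtype_le W
      have hmemW : ∀ w : G, w ∈ W' ↔ ∃ h : q w ∈ V, (⟨q w, h⟩ : V) ∈ W := by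
        intro w
        rw [hW', Subgroup.mem_comap, Subgroup.mem_map]
        constructor
        · rintro ⟨y, hy, hyw⟩
          have hyw' : (y : Q) = q w := hyw
          exact ⟨hyw' ▸ y.2, by convert hy; exact hyw'.symm⟩
        · rintro ⟨h1, h2⟩
          exact ⟨_, h2, rfl⟩
      have hMW' : M ≤ W' := by
        rw [← hqk, ← MonoidHom.comap_bot]; exact Subgroup.comap_mono bot_le
      have hW'ne : M ≠ W' := by
        intro heq
        apply hW0
        have h1 : W.map V.subtype = ⊥ := by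
          rw [← Subgroup.map_comap_eq_self_of_surjective hqs (W.map V.subtype), ← hW', ← heq, ← hqk,
            Subgroup.map_eq_bot_iff]
        rwa [Subgroup.map_eq_bot_iff_of_injective _ (Subgroup.subtype_injective V)] at h1
      have hW'N : W' ≤ N := by
        rw [← hcomapV]; exact Subgroup.comap_mono hWle
      have hW'P : ∀ s ∈ P, ∀ w ∈ W', s * w * s⁻¹ ∈ W' := by
        intro s hs w hw
        rw [hmemW] at hw ⊢
        obtain ⟨h1, h2⟩ := hw
        have h3 := hWP ⟨s, hs⟩ _ h2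
        have h4 : q (s * w * s⁻¹) = ((φ ⟨s, hs⟩ ⟨q w, h1⟩ : V) : Q) := by
          rw [hφ]; simp
        exact ⟨h4 ▸ (φ ⟨s, hs⟩ ⟨q w, h1⟩).2, by convert h3⟩
      have hW'irr : ∀ K : Subgroup G, M ≤ K → K ≤ W' → (∀ s ∈ P, ∀ w ∈ K, s * w * s⁻¹ ∈ K) →
          K = M ∨ K = W' := by
        intro K hMK hKW hKP
        have hKV : K.map q ≤ V := Subgroup.map_mono (hKW.trans hW'N)
        have hKq : (K.map q).comap q = K := Subgroup.comap_map_eq_self (by rw [hqk]; exact hMK)
        have h1 := hWmin ((K.map q).subgroupOf V) (by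
            intro w hw
            obtain ⟨k, hk, hkw⟩ := Subgroup.mem_subgroupOf.1 hw
            obtain ⟨h1, h2⟩ := (hmemW k).1 (hKW hk)
            convert h2
            exact hkw.symm) (by
            intro s w hw
            obtain ⟨k, hk, hkw⟩ := Subgroup.mem_subgroupOf.1 hw
            refine Subgroup.mem_subgroupOf.2 ⟨s * k * (s : G)⁻¹, hKP s s.2 k hk, ?_⟩
            have h3 := hφ s w
            rw [← hkw] at h3
            exact (by simpa using h3.symm))
        rcases h1 with h1 | h1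
        · left
          have h2 : K.map q = ⊥ := by
            rw [eq_bot_iff]
            intro y hy
            have : (⟨y, hKV hy⟩ : V) ∈ (K.map q).subgroupOf V := Subgroup.mem_subgroupOf.2 hy
            rw [h1, Subgroup.mem_bot] at this
            exact congrArg Subtype.val this
          rw [← hKq, h2, MonoidHom.comap_bot, hqk]
        · right
          rw [hW', ← h1, Subgroup.subgroupOf_map_subtype, inf_eq_left.2 hKV, hKq]
      rcases h P W' (lt_of_le_of_ne hMW' hW'ne) hW'N hW'P hW'irr x x.2 with h1 | h1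
      · left
        intro w hw
        obtain ⟨w', hw'⟩ := hqs w
        rw [hfix x w w' hw']
        refine h1 w' ?_
        rw [hmemW]
        exact ⟨hw' ▸ w.2, by convert hw⟩
      · right
        intro w hw hxw
        obtain ⟨w', hw'⟩ := hqs w
        rw [hfix x w w' hw'] at hxw
        have h2 : w' ∈ W' := by
          rw [hmemW]
          exact ⟨hw' ▸ w.2, by convert hw⟩
        have h3 := h1 w' h2 hxw
        rw [← hmemM, hw'] at h3
        exact Subtype.ext h3) ⟨x, hx⟩ ⊤ (fun _ _ _ => trivial) ⟨q v, ⟨v, hv, rfl⟩⟩ trivial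
      ((hfix ⟨x, hx⟩ ⟨q v, ⟨v, hv, rfl⟩⟩ v rfl).2 hxv) ⟨s, hs⟩
  have := (hfix _ _ v rfl).1 main
  simpa using this

end Pool.Agent.Lib.MP_e3cc28_al
end
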