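import Pool.Agent.Lib.MP_e3cc28_al.Basic

set_option autoImplicit false

namespace Pool.Agent.Lib.MP_e3cc28_al

open Subgroup Pointwise

universe u v

variable {G : Type u} [Group G] {G' : Type v} [Group G'] {f : G →* G'}

/-- stabilisers in Sylow 2-subgroups of elements of the kernel of `f` are normal -/
def StabN (f : G →* G') : Prop :=
  ∀ P : Sylow 2 G, ∀ v, f v = 1 → ∀ x ∈ P, x * v = v * x → ∀ s ∈ P,
    (s * x * s⁻¹) * v = v * (s * x * s⁻¹)

lemma mem_map_sylow (hf : Function.Surjective f) [Finite G] {P : Sylow 2 G} {y : G'} :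
    y ∈ P.mapSurjective hf ↔ ∃ x ∈ P, f x = y := by
  rfl

theorem star_of_star_odd [Finite G] (hf : Function.Surjective f) (hK : Odd (Nat.card f.ker))
    (h : Star' G) : Star' G' := by
  have hG' : Finite G' := Finite.of_surjective f hf
  intro P' Q'
  obtain ⟨P, -, -, hP⟩ := exists_lift hf hK P' ⊤ ⊥
    (by rw [Subgroup.map_top_of_surjective f hf]; exact le_top) IsPGroup.of_bot bot_le
    (by simp)
  obtain ⟨Q, hUQ, -, hQ⟩ := exists_lift hf hK Q' ⊤ ((P : Subgroup G) ⊓ (Q' : Subgroup G').comap f)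
    (by rw [Subgroup.map_top_of_surjective f hf]; exact le_top) (P.2.to_le inf_le_left) le_top
    (Subgroup.map_le_iff_le_comap.2 inf_le_right)
  obtain ⟨S, hS1, hS2, hS3⟩ := h P Q
  have key : ∀ y, y ∈ P' → y ∈ Q' → ∃ x, x ∈ P ∧ x ∈ Q ∧ f x = y := by
    intro y hy hy'
    have : y ∈ (P : Subgroup G).map f := by rw [hP]; exact hy
    obtain ⟨x, hx, rfl⟩ := this
    exact ⟨x, hx, hUQ ⟨hx, hy'⟩, rfl⟩
  have hPm : ∀ x ∈ P, f x ∈ P' := fun x hx => by
    have : f x ∈ (P : Subgroup G).map f := ⟨x, hx, rfl⟩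
    rw [hP] at this; exact this
  have hQm : ∀ x ∈ Q, f x ∈ Q' := fun x hx => by
    have : f x ∈ (Q : Subgroup G).map f := ⟨x, hx, rfl⟩
    rw [hQ] at this; exact this
  refine ⟨S.mapSurjective hf, ?_, ?_, ?_⟩
  · rw [Sylow.coe_mapSurjective]
    refine (Subgroup.map_mono hS1).trans ?_
    rw [Subgroup.map_sup, hP, hQ]
  · intro y hy hy'
    obtain ⟨x, hx, hx', rfl⟩ := key y hy hy'
    exact ⟨x, hS2 x hx hx', rfl⟩
  · rintro _ ⟨s, hs, rfl⟩ y hy hy'
    obtain ⟨d, hd, hd', rfl⟩ := key y hy hy'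
    have := hS3 s hs d hd hd'
    exact ⟨by simpa using hPm _ this.1, by simpa using hQm _ this.2⟩

theorem stabN_of_star_odd [Finite G] (hf : Function.Surjective f) (hK : Odd (Nat.card f.ker))
    (h : Star' G) : StabN f := by
  have hG' : Finite G' := Finite.of_surjective f hf
  intro P v hv x hx hxv s hs
  set Q : Sylow 2 G := MulAut.conj v • P with hQ
  have memQ : ∀ y, y ∈ Q ↔ v⁻¹ * y * v ∈ P := by
    intro y
    change y ∈ (Q : Subgroup G) ↔ _
    rw [hQ, Sylow.pointwise_smul_def, Subgroup.mem_pointwise_smul_iff_inv_smul_mem]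
    simp [MulAut.smul_def]
    rfl
  obtain ⟨S, hS1, hS2, hS3⟩ := h P Q
  have hcomm : ∀ y, y ∈ P → y ∈ Q → y * v = v * y := by
    intro y hy hy'
    have := comm_of_mem hK P.2 hv hy ((memQ y).1 hy')
    rw [mul_assoc, inv_mul_eq_iff_eq_mul] at this
    exact this
  have hcomm' : ∀ y, y ∈ P → y * v = v * y → y ∈ Q := by
    intro y hy hy'
    rw [memQ, mul_assoc, hy', inv_mul_cancel_left]
    exact hy
  have hfPQ : (Q : Subgroup G).map f ≤ (P : Subgroup G).map f := by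
    rintro _ ⟨y, hy, rfl⟩
    exact ⟨_, (memQ y).1 hy, by simp [hv]⟩
  have hSP : (S : Subgroup G).map f = (P : Subgroup G).map f := by
    have hle : (S : Subgroup G).map f ≤ (P : Subgroup G).map f := by
      refine (Subgroup.map_mono hS1).trans ?_
      rw [Subgroup.map_sup]
      exact sup_le le_rfl hfPQ
    have h3 := (S.mapSurjective hf).is_maximal' (Q := (P : Subgroup G).map f) (P.2.map f)
      (by rw [Sylow.coe_mapSurjective]; exact hle)
    rw [Sylow.coe_mapSurjective] at h3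
    exact h3.symm
  obtain ⟨m, hm, hm1, hm2⟩ := exists_conj hf hK S.2 P.2 hSP
  have hxQ := hcomm' x hx hxv
  have hmx : m * x * m⁻¹ = x :=
    eq_of_mem hK P.2 (hm1 x (hS2 x hx hxQ)) hx (by simp [hm])
  have h1 := hS3 _ (hm2 s hs) x hx hxQ
  have h2 : (m⁻¹ * s * m) * x * (m⁻¹ * s * m)⁻¹ = m⁻¹ * (s * x * s⁻¹) * m := by
    have : (m⁻¹ * s * m) * x * (m⁻¹ * s * m)⁻¹ = m⁻¹ * s * (m * x * m⁻¹) * s⁻¹ * m := by group
    rw [this, hmx]; group
  rw [h2] at h1
  have h3 : m⁻¹ * (s * x * s⁻¹) * m = s * x * s⁻¹ :=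
    eq_of_mem hK P.2 h1.1 (mul_mem (mul_mem hs hx) (inv_mem hs)) (by simp [hm])
  rw [h3] at h1
  exact hcomm _ h1.1 h1.2

theorem star_of_stabN [Finite G] (hf : Function.Surjective f) (hK : Odd (Nat.card f.ker))
    (h' : Star' G') (hs : StabN f) : Star' G := by
  have hG' : Finite G' := Finite.of_surjective f hf
  intro P Q
  obtain ⟨S', hS1, hS2, hS3⟩ := h' (P.mapSurjective hf) (Q.mapSurjective hf)
  set RP : Subgroup G := (P : Subgroup G) ⊓ ((Q : Subgroup G).map f).comap f with hRP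
  set RQ : Subgroup G := (Q : Subgroup G) ⊓ ((P : Subgroup G).map f).comap f with hRQ
  have hRPmap : RP.map f ≤ S' := by
    rintro _ ⟨x, hx, rfl⟩
    exact hS2 _ ⟨x, hx.1, rfl⟩ hx.2
  have hmaps : RP.map f = RQ.map f := by
    apply le_antisymm
    · rintro _ ⟨x, hx, rfl⟩
      obtain ⟨y, hy, hxy⟩ := hx.2
      exact ⟨y, ⟨hy, ⟨x, hx.1, hxy.symm⟩⟩, hxy⟩
    · rintro _ ⟨x, hx, rfl⟩
      obtain ⟨y, hy, hxy⟩ := hx.2
      exact ⟨y, ⟨hy, ⟨x, hx.1, hxy.symm⟩⟩, hxy⟩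
  obtain ⟨S, hUS, hSH, hSmap⟩ := exists_lift hf hK S' ((P : Subgroup G) ⊔ (Q : Subgroup G)) RP
    (by rw [Subgroup.map_sup]; exact hS1) (P.2.to_le inf_le_left) (inf_le_left.trans le_sup_left)
    hRPmap
  have hfS : ∀ s ∈ S, f s ∈ S' := fun s hs => by
    have : f s ∈ (S : Subgroup G).map f := ⟨s, hs, rfl⟩
    rw [hSmap] at this; exact this
  have hnorm : ∀ s ∈ S, ∀ r ∈ RP, s * r * s⁻¹ ∈ RP := by
    intro s hs r hr
    have h1 := hS3 (f s) (hfS s hs) (f r) ⟨r, hr.1, rfl⟩ hr.2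
    obtain ⟨⟨p, hp, hpe⟩, hq⟩ := h1
    have hpR : p ∈ RP := by
      refine ⟨hp, ?_⟩
      change f p ∈ (Q : Subgroup G).map f
      rw [hpe]; exact hq
    have : s * r * s⁻¹ = p :=
      eq_of_mem hK S.2 (mul_mem (mul_mem hs (hUS hr)) (inv_mem hs)) (hUS hpR) (by simp [hpe])
    rw [this]; exact hpR
  obtain ⟨m, hm, hm1, hm2⟩ := exists_conj hf hK (A := RP) (B := RQ) (P.2.to_le inf_le_left)
    (Q.2.to_le inf_le_left) hmaps
  have hPQ : ∀ x, x ∈ P → x ∈ Q → x ∈ RP ∧ x * m = m * x := by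
    intro x hx hx'
    have hxR : x ∈ RP := ⟨hx, ⟨x, hx', rfl⟩⟩
    refine ⟨hxR, ?_⟩
    have : m * x * m⁻¹ = x := eq_of_mem hK Q.2 (hm1 x hxR).1 hx' (by simp [hm])
    rw [mul_inv_eq_iff_eq_mul] at this
    exact this.symm
  have hPQ' : ∀ x, x ∈ RP → x * m = m * x → x ∈ P ∧ x ∈ Q := by
    intro x hx hxm
    refine ⟨hx.1, ?_⟩
    have := (hm1 x hx).1
    rw [← hxm, mul_inv_cancel_right] at this
    exact this
  refine ⟨S, hSH, fun x hx hx' => hUS (hPQ x hx hx').1, ?_⟩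
  intro s hsS d hd hd'
  obtain ⟨hdR, hdm⟩ := hPQ d hd hd'
  exact hPQ' _ (hnorm s hsS d hdR) (hs S m hm d (hUS hdR) hdm s hsS)

/-! ### kernel a 2-group -/

lemma ker_le_sylow [Finite G] (hK : IsPGroup 2 f.ker) (P : Sylow 2 G) : f.ker ≤ P := by
  exact hK.le_sylow_of_normal P

theorem star_iff_two [Finite G] (hf : Function.Surjective f) (hK : IsPGroup 2 f.ker) :
    Star' G ↔ Star' G' := by
  have hG' : Finite G' := Finite.of_surjective f hf
  have key : ∀ (P : Sylow 2 G) x, f x ∈ P.mapSurjective hf → x ∈ P := by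
    rintro P x ⟨y, hy, hxy⟩
    have h1 : y⁻¹ * x ∈ f.ker := by rw [MonoidHom.mem_ker]; simp [hxy]
    have h2 := ker_le_sylow hK P h1
    have h3 := mul_mem hy h2
    rwa [mul_inv_cancel_left] at h3
  constructor
  · intro h P' Q'
    obtain ⟨P, rfl⟩ := Sylow.mapSurjective_surjective hf 2 P'
    obtain ⟨Q, rfl⟩ := Sylow.mapSurjective_surjective hf 2 Q'
    obtain ⟨S, hS1, hS2, hS3⟩ := h P Q
    refine ⟨S.mapSurjective hf, ?_, ?_, ?_⟩
    · simp only [Sylow.coe_mapSurjective]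
      rw [← Subgroup.map_sup]
      exact Subgroup.map_mono hS1
    · intro y hy hy'
      obtain ⟨x, rfl⟩ := hf y
      exact ⟨x, hS2 x (key P x hy) (key Q x hy'), rfl⟩
    · rintro _ ⟨s, hs, rfl⟩ y hy hy'
      obtain ⟨x, rfl⟩ := hf y
      have := hS3 s hs x (key P x hy) (key Q x hy')
      exact ⟨⟨_, this.1, by simp⟩, ⟨_, this.2, by simp⟩⟩
  · intro h P Q
    obtain ⟨S', hS1, hS2, hS3⟩ := h (P.mapSurjective hf) (Q.mapSurjective hf)
    obtain ⟨S, rfl⟩ := Sylow.mapSurjective_surjective hf 2 S'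
    refine ⟨S, ?_, ?_, ?_⟩
    · intro x hx
      have h1 : f x ∈ (S.mapSurjective hf : Subgroup G') := ⟨x, hx, rfl⟩
      have h2 := hS1 h1
      simp only [Sylow.coe_mapSurjective] at h2
      rw [← Subgroup.map_sup] at h2
      obtain ⟨y, hy, hxy⟩ := h2
      have h3 : y⁻¹ * x ∈ f.ker := by rw [MonoidHom.mem_ker]; simp [hxy]
      have h4 := mul_mem hy ((ker_le_sylow hK P).trans le_sup_left h3)
      rwa [mul_inv_cancel_left] at h4
    · intro x hx hx'
      exact key S x (hS2 (f x) ⟨x, hx, rfl⟩ ⟨x, hx', rfl⟩)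
    · intro s hs d hd hd'
      have := hS3 (f s) ⟨s, hs, rfl⟩ (f d) ⟨d, hd, rfl⟩ ⟨d, hd', rfl⟩
      rw [← map_mul, ← map_inv, ← map_mul] at this
      exact ⟨key P _ this.1, key Q _ this.2⟩

end Pool.Agent.Lib.MP_e3cc28_al
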