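import Pool.Agent.Lib.MP_e3cc28_al.Basic

set_option autoImplicit false

namespace Pool.Agent.Lib.MP_e3cc28_al

open Equiv

lemma card_cent (z : Perm (Fin 5)) (n : ℕ)
    (h : (Finset.univ.filter fun σ : Perm (Fin 5) => σ * z = z * σ).card = n) :
    Nat.card (Subgroup.centralizer {z} : Subgroup (Perm (Fin 5))) = n := by
  rw [← h, ← Nat.card_eq_finsetCard]
  refine Nat.card_congr (Equiv.subtypeEquivRight fun σ => ?_)
  rw [Subgroup.mem_centralizer_singleton_iff]
  simp

lemma sylow_of_card {H : Subgroup (Perm (Fin 5))} (h : Nat.card H = 8) :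
    ∃ P : Sylow 2 (Perm (Fin 5)), (P : Subgroup (Perm (Fin 5))) = H := by
  have hp : IsPGroup 2 H := IsPGroup.of_card (n := 3) (by rw [h]; norm_num)
  have h1 := H.card_mul_index
  rw [h, Nat.card_eq_fintype_card, Fintype.card_perm, Fintype.card_fin] at h1
  have h2 : H.index = 15 := by
    have : Nat.factorial 5 = 8 * 15 := by decide
    rw [this] at h1
    exact Nat.eq_of_mul_eq_mul_left (by norm_num) h1
  exact ⟨hp.toSylow (by rw [h2]; norm_num), rfl⟩

theorem not_star_S5 : ¬ Star' (Perm (Fin 5)) := by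
  intro h
  obtain ⟨P, hP⟩ := sylow_of_card (card_cent (swap 0 1 * swap 2 3) 8 (by decide +kernel))
  obtain ⟨Q, hQ⟩ := sylow_of_card (card_cent (swap 0 1 * swap 2 4) 8 (by decide +kernel))
  obtain ⟨S, -, hS2, hS3⟩ := h P Q
  have memP : ∀ σ, σ ∈ P ↔ σ * (swap 0 1 * swap 2 3) = (swap 0 1 * swap 2 3) * σ := by
    intro σ
    change σ ∈ (P : Subgroup (Perm (Fin 5))) ↔ _
    rw [hP, Subgroup.mem_centralizer_singleton_iff]
  have memQ : ∀ σ, σ ∈ Q ↔ σ * (swap 0 1 * swap 2 4) = (swap 0 1 * swap 2 4) * σ := by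
    intro σ
    change σ ∈ (Q : Subgroup (Perm (Fin 5))) ↔ _
    rw [hQ, Subgroup.mem_centralizer_singleton_iff]
  have key : ∀ σ : Perm (Fin 5), σ * (swap 0 1 * swap 2 3) = (swap 0 1 * swap 2 3) * σ →
      σ * (swap 0 1 * swap 2 4) = (swap 0 1 * swap 2 4) * σ → σ = 1 ∨ σ = swap 0 1 := by
    decide +kernel
  have h01P : (swap 0 1 : Perm (Fin 5)) ∈ P := (memP _).2 (by decide +kernel)
  have h01Q : (swap 0 1 : Perm (Fin 5)) ∈ Q := (memQ _).2 (by decide +kernel)
  have hSC : (S : Subgroup (Perm (Fin 5))) ≤ Subgroup.centralizer {(swap 0 1 : Perm (Fin 5))} := by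
    intro s hs
    rw [Subgroup.mem_centralizer_singleton_iff]
    obtain ⟨h1, h2⟩ := hS3 s hs _ h01P h01Q
    rcases key _ ((memP _).1 h1) ((memQ _).1 h2) with h3 | h3
    · exfalso
      rw [mul_inv_eq_one] at h3
      have : (swap 0 1 : Perm (Fin 5)) = 1 := by
        rwa [mul_eq_left] at h3
      exact absurd this (by decide +kernel)
    · exact mul_inv_eq_iff_eq_mul.1 h3
  have h1 := Subgroup.card_dvd_of_le hSC
  have hScard : Nat.card (S : Subgroup (Perm (Fin 5))) = 8 := by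
    have h2 : Nat.card (P : Subgroup (Perm (Fin 5))) = 8 := by
      rw [hP]; exact card_cent _ 8 (by decide +kernel)
    rw [← h2]
    exact S.card_eq_multiplicity.trans P.card_eq_multiplicity.symm
  rw [hScard, card_cent (swap 0 1) 12 (by decide +kernel)] at h1
  exact absurd h1 (by norm_num)

end Pool.Agent.Lib.MP_e3cc28_al
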